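import Pool.Agent.Helper39.RP.SigE
import Pool.Agent.Helper11.LE.Goals1

/-!
# Project LE: the statement L_LOG
-/

set_option linter.unusedSectionVars false

namespace Pool.Agent.Helper16.LE

open NumberField Polynomial Module Pool.Agent.Helper51.SigLeo
open Pool.Agent.Helper51.RP Pool.Agent.Helper39.RP

attribute [local instance] zpMod

/-- Two digits congruent modulo `p` in the `p`-adic integers are equal. -/
theorem digit_eq {p : ℕ} [Fact p.Prime] (a b : Fin p) (c : ℤ_[p])
    (h : ((a : ℕ) : ℤ_[p]) = ((b : ℕ) : ℤ_[p]) + p * c) : a = b := by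
  have h1 : ((p : ℤ_[p]) ^ 1) ∣ (((a : ℕ) : ℤ) - ((b : ℕ) : ℤ) : ℤ) := by
    refine ⟨c, ?_⟩
    push_cast
    rw [h, pow_one]
    ring
  have h2 : ((p : ℤ) ^ 1) ∣ (((a : ℕ) : ℤ) - ((b : ℕ) : ℤ)) := by
    have h3 := (PadicInt.norm_le_pow_iff_mem_span_pow (p := p)
      ((((a : ℕ) : ℤ) - ((b : ℕ) : ℤ) : ℤ) : ℤ_[p]) 1).2 (Ideal.mem_span_singleton.2 h1)
    exact PadicInt.norm_int_le_pow_iff_dvd.1 (by exact_mod_cast h3)
  rw [pow_one] at h2
  have h4 : ((a : ℕ) : ℤ) = ((b : ℕ) : ℤ) := by
    have ha := a.2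
    have hb := b.2
    obtain ⟨q, hq⟩ := h2
    have hq0 : q = 0 := by
      by_contra hne
      have hpp : (0 : ℤ) < p := by exact_mod_cast (Fact.out : p.Prime).pos
      rcases lt_or_gt_of_ne hne with h | h
      · have : (p : ℤ) * q ≤ -p := by nlinarith
        omega
      · have : (p : ℤ) ≤ p * q := by nlinarith
        omega
    rw [hq0, mul_zero] at hq
    omega
  exact Fin.ext (by exact_mod_cast h4)

theorem l_log : Pool.Agent.Helper11.LE.L_LOG := by
  intro p _ k _ _ _ _ hρ L K _ _ T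
  classical
  have hp := two_le_p p
  have hchar : CharZero k := charZero_k p
  have hfinM : Finite (K →+* k) := inferInstance
  let _ : Fintype T := Fintype.ofFinite _
  set Λ := Lam T L with hΛ
  have hfg : Λ.FG := Lam_fg T L
  have hMF : Module.Finite ℤ_[p] Λ := Module.Finite.iff_fg.2 hfg
  have hTF : Module.IsTorsionFree ℤ_[p] Λ := by
    refine Module.IsTorsionFree.of_smul_eq_zero fun r v h => ?_
    have h2 : ((r : ℤ_[p]) : ℚ_[p]) • (v : T → k) = 0 := congrArg Subtype.val h
    rcases smul_eq_zero.1 h2 with h3 | h3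
    · left
      exact Subtype.ext h3
    · right
      exact Subtype.ext h3
  have hFree : Module.Free ℤ_[p] Λ := Module.free_of_finite_type_torsion_free'
  set b := Module.finBasis ℤ_[p] Λ with hb
  set r := finrank ℤ_[p] Λ with hr
  have hsm : ∀ (c : ℤ_[p]) (v : Λ), ((c • v : Λ) : T → k) =
      algebraMap ℚ_[p] k (c : ℚ_[p]) • (v : T → k) := by
    intro c v
    funext τ
    change ((c : ℚ_[p]) • (v : T → k)) τ = algebraMap ℚ_[p] k (c : ℚ_[p]) • _
    rw [Pi.smul_apply, Algebra.smul_def]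
    rfl
  -- the rank of the lattice
  have hrT : T.ncard ≤ r := by
    have hspan : Submodule.span k (Set.range fun i => (b i : T → k)) = ⊤ := by
      rw [eq_top_iff, ← span_top T L, Submodule.span_le]
      rintro _ ⟨x, hx, rfl⟩
      have h1 := b.sum_repr (⟨ell L T x, ell_mem_Lam T L hx⟩ : Λ)
      have h2 := congrArg Subtype.val h1
      rw [Submodule.coe_sum] at h2
      change _ = ell L T x at h2
      rw [← h2]
      refine Submodule.sum_mem _ fun i _ => ?_
      rw [hsm]
      exact Submodule.smul_mem _ _ (Submodule.subset_span ⟨i, rfl⟩)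
    have h1 := finrank_range_le_card (R := k) (fun i => (b i : T → k))
    unfold Set.finrank at h1
    rw [hspan, finrank_top, finrank_fintype_fun_eq_card, Fintype.card_fin] at h1
    rwa [Set.ncard_eq_toFinset_card', Set.toFinset_card]
  -- representatives
  choose X hXU U hUL hX using fun v : Λ => Lam_mod T L v.2
  obtain ⟨F₀, -, hF₀⟩ : ∃ F₀ ⊆ (Finset.univ : Finset (Fin r → Fin p)), F₀.card = p ^ T.ncard := by
    apply Finset.exists_subset_card_eq
    rw [Finset.card_univ, Fintype.card_fun, Fintype.card_fin, Fintype.card_fin]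
    exact Nat.pow_le_pow_right (Fact.out : p.Prime).pos hrT
  set V : (Fin r → Fin p) → Λ := fun c => ∑ i, (((c i : ℕ) : ℤ_[p])) • b i with hV
  have hVr : ∀ c i, b.repr (V c) i = ((c i : ℕ) : ℤ_[p]) := by
    intro c i
    change b.repr (∑ i, ((c i : ℕ) : ℤ_[p]) • b i) i = _
    rw [b.repr_sum_self]
  have hVinj : ∀ c c' (u : Λ), V c = V c' + (p : ℤ_[p]) • u → c = c' := by
    intro c c' u h
    funext i
    have h1 := congrArg (fun v => b.repr v i) h
    simp only [map_add, map_smul, Finsupp.add_apply, Finsupp.smul_apply, smul_eq_mul, hVr] at h1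
    exact digit_eq _ _ _ h1
  have hquot : ∀ c c', c ≠ c' → ¬ LocSig L T (X (V c) / X (V c')) := by
    intro c c' hcc hloc
    have hU : X (V c) / X (V c') ∈ UT T := (UT T).div_mem (hXU _) (hXU _)
    obtain ⟨u, hu, hu'⟩ := (locSig_iff T L hU).1 hloc
    apply hcc
    apply hVinj c c' (⟨u, hu⟩ + ⟨U (V c), hUL (V c)⟩ - ⟨U (V c'), hUL (V c')⟩)
    apply Subtype.ext
    change (V c : T → k) = (V c' : T → k) + (p : ℤ_[p]) • (u + U (V c) - U (V c'))
    rw [div_eq_mul_inv, ell_mul, ell_inv] at hu'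
    rw [hX (V c), hX (V c'), smul_sub, smul_add, ← hu']
    abel
  have hinj : Set.InjOn (fun c => X (V c)) (F₀ : Set (Fin r → Fin p)) := by
    intro c hc c' hc' h
    by_contra hne
    apply hquot c c' hne
    have h' : X (V c) = X (V c') := h
    rw [h', div_self']
    have h0 : (1 : Kˣ) ∈ UT T := (UT T).one_mem
    rw [locSig_iff T L h0]
    exact ⟨0, (Lam T L).zero_mem, by rw [ell_one, smul_zero]⟩
  refine ⟨F₀.image (fun c => X (V c)), ?_, ?_, ?_⟩
  · rw [Finset.card_image_of_injOn hinj, hF₀]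
  · intro x hx
    obtain ⟨c, hc, rfl⟩ := Finset.mem_image.1 hx
    exact hXU _
  · intro x hx y hy hxy
    obtain ⟨c, hc, rfl⟩ := Finset.mem_image.1 hx
    obtain ⟨c', hc', rfl⟩ := Finset.mem_image.1 hy
    exact hquot c c' fun h => hxy (by rw [h])

end Pool.Agent.Helper16.LE
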