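import Pool.Agent.Helper74.LE.GoalsH

/-!
# Project LE (MP_cc6379_al), packet UA2: type A, `m_bc = 2`, second case, all weight functions
(adapted from the packet LL-UA2 of helper71)
-/

set_option autoImplicit false

open LaurentPolynomial Pool.Agent.Helper15.RA Pool.Agent.Helper45.AM

noncomputable section

namespace Pool.Agent.Helper16.LE.UA2

open Pool.Agent.Helper74.LE
open Pool.Agent.Helper74.LL (KD1 KD2 K1 GEO RA1 Lg w0 Full Sm)

section

variable {S W H : Type} [Group W] [Ring H] [Algebra ℤ[T;T⁻¹] H] (X : TE S W H)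

theorem mul3 (x g y : W) (h : X.cs.length (x * g * y) = X.cs.length x + X.cs.length g + X.cs.length y) :
    X.D.t x * X.D.t g * X.D.t y = X.D.t (x * g * y) := by
  have h1 := X.cs.length_mul_le x g
  have h2 := X.cs.length_mul_le (x * g) y
  have h3 : X.cs.length (x * g) = X.cs.length x + X.cs.length g := by omega
  rw [X.D.mul x g h3, X.D.mul (x * g) y (by rw [h3]; exact h)]

theorem mulr (w : W) (i : S) (h : X.cs.length (w * X.cs.simple i) = X.cs.length w + 1) :
    X.D.t w * X.D.t (X.cs.simple i) = X.D.t (w * X.cs.simple i) :=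
  X.D.mul w _ (by rw [X.cs.length_simple]; exact h)

theorem mull (w : W) (i : S) (h : X.cs.length (X.cs.simple i * w) = X.cs.length w + 1) :
    X.D.t (X.cs.simple i) * X.D.t w = X.D.t (X.cs.simple i * w) :=
  X.D.mul _ w (by rw [X.cs.length_simple, h]; omega)

theorem mulr' (w : W) (i : S) (h : X.cs.length (w * X.cs.simple i) + 1 = X.cs.length w) :
    X.D.t w * X.D.t (X.cs.simple i) =
      xi (X.L (X.cs.simple i)) • X.D.t w + X.D.t (w * X.cs.simple i) :=
  (g_h1 S W H X.M X.cs X.L X.D.toHecke1.toHecke0).2.2.2.2.1 i w h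

theorem mull' (w : W) (i : S) (h : X.cs.length (X.cs.simple i * w) + 1 = X.cs.length w) :
    X.D.t (X.cs.simple i) * X.D.t w =
      xi (X.L (X.cs.simple i)) • X.D.t w + X.D.t (X.cs.simple i * w) :=
  (g_h1 S W H X.M X.cs X.L X.D.toHecke1.toHecke0).2.2.1 i w h

theorem ge_self {m : ℕ} {g : W} {I : Set S} (hI : Sm I) (hg : g ∈ par X.cs I) (h : m ≤ X.α g) :
    X.Ge m g :=
  ⟨1, g, 1, I, hI, hg, by simp, by simp, h⟩

end

theorem t (hKD1 : KD1) (hKD2 : KD2) (hK1 : K1) (hGEO : GEO) (hHWT : HWT) (hHW0 : HW0)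
    (hRA1 : RA1) (hHRL : HRL) (hULOW : ULOW) : UA2 := by
  intro S W H _ _ _ X M n a b c x y hId hN0 hN1 hN2 hab hac hbc hxR hyL hxc hyc hn hay
  have hLg : Lg X.M := ⟨X.fin, X.mat, X.big⟩
  obtain ⟨-, hL1, -, hWt⟩ := hHWT S W H X
  obtain ⟨d1, d2, d3, d4, d5, d6, d7, d8, d9, d10, d11⟩ := hKD2 S W X.M X.cs
  -- the matrix
  have hbcne : b ≠ c := by
    rintro rfl
    rw [X.M.diagonal] at hbc
    omega
  have hsym : ∀ i j, X.M i j = X.M j i := fun i j => (X.M.symmetric i j)
  have hab2 : X.M a b ≠ 2 := fun h => hac (X.mat b c a hbc (by rw [hsym]; exact h)).symm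
  have hac2 : X.M a c ≠ 2 := fun h => hab (X.mat c b a (by rw [hsym]; exact hbc) (by rw [hsym]; exact h)).symm
  have hab7 : 7 ≤ X.M a b := hLg.big a b hab hab2
  have hac7 : 7 ≤ X.M a c := hLg.big a c hac hac2
  have ma : a ∈ ({a, b} : Set S) := Or.inl rfl
  have mb : b ∈ ({a, b} : Set S) := Or.inr rfl
  have hcomm : X.cs.simple b * X.cs.simple c = X.cs.simple c * X.cs.simple b := d11 b c hbc
  have hsq : ∀ (i : S) (w : W), X.cs.simple i * (X.cs.simple i * w) = w := fun i w => by
    rw [← mul_assoc, X.cs.simple_mul_simple_self, one_mul]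
  have hsq' : ∀ (i : S) (w : W), w * X.cs.simple i * X.cs.simple i = w := fun i w => by
    rw [mul_assoc, X.cs.simple_mul_simple_self, mul_one]
  have hxa := hxR a ma
  have hxb := hxR b mb
  have hya := hyL a ma
  have hyb := hyL b mb
  obtain ⟨⟨k1, k2, k3, k4, k5⟩, k6, k7, ⟨k8, k9, k10, k11⟩, k12, k13, k14, k15, k16, k17, k18⟩ :=
    hKD1 S W X.M X.cs a b hab (X.fin a b)
  -- `y₅`
  have hyc' : X.cs.IsLeftDescent y c := by
    have h1 : X.cs.IsLeftDescent (X.cs.simple b * y) b := by
      rw [X.cs.isLeftDescent_iff, hsq]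
      exact hyb.symm
    have h2 := (d2 b c hbcne (X.fin b c) (X.cs.simple b * y) h1 hyc).2.1
    rwa [hsq] at h2
  obtain ⟨y₅, hy5⟩ : ∃ y₅, y₅ = X.cs.simple c * y := ⟨_, rfl⟩
  have hy5' : X.cs.simple c * y₅ = y := by rw [hy5, hsq]
  have hly5 : X.cs.length y₅ + 1 = X.cs.length y := by
    rw [hy5]
    exact (X.cs.isLeftDescent_iff).1 hyc'
  have hc5 : ¬ X.cs.IsLeftDescent y₅ c := by
    rw [X.cs.not_isLeftDescent_iff, hy5']
    exact hly5.symm
  have hb5 : ¬ X.cs.IsLeftDescent y₅ b := by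
    intro h
    have h1 := d6 c b y₅ (by rw [hsym]; exact hbc) hc5 h
    rw [hy5', X.cs.isLeftDescent_iff] at h1
    omega
  have hlb5 : X.cs.length (X.cs.simple b * y₅) = X.cs.length y₅ + 1 := (X.cs.not_isLeftDescent_iff).1 hb5
  have hlc5 : X.cs.length (X.cs.simple c * y₅) = X.cs.length y₅ + 1 := (X.cs.not_isLeftDescent_iff).1 hc5
  rw [← hy5] at hay
  have hbb5 : X.cs.IsLeftDescent (X.cs.simple b * y₅) b := by
    rw [X.cs.isLeftDescent_iff, hsq]
    exact hlb5.symm
  obtain ⟨⟨y₆, hy6, e6, l6⟩, e7, e8⟩ := d2 a b hab (X.fin a b) (X.cs.simple b * y₅) hay hbb5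
  obtain ⟨e9, e10, -⟩ := e8 hab7
  set w := w0 X.cs a b with hw
  have hly : X.cs.length y = X.M a b + X.cs.length y₆ := by omega
  -- the element
  have hcx : X.cs.length (x * X.cs.simple a * X.cs.simple c) + 1 = X.cs.length x + 1 := by
    rw [← hxa]
    exact (X.cs.isRightDescent_iff).1 hxc
  have hlab : X.cs.length (X.cs.simple a * X.cs.simple b) = 2 := k16
  have tab : X.D.t (X.cs.simple a * X.cs.simple b) = X.D.t (X.cs.simple a) * X.D.t (X.cs.simple b) :=
    (X.D.mul _ _ (by rw [hlab, X.cs.length_simple, X.cs.length_simple])).symm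
  have tbc : X.D.t (X.cs.simple b) * X.D.t (X.cs.simple c) =
      X.D.t (X.cs.simple c) * X.D.t (X.cs.simple b) := by
    have hlbc : X.cs.length (X.cs.simple b * X.cs.simple c) = 2 :=
      (hKD1 S W X.M X.cs b c hbcne (X.fin b c)).2.2.2.2.2.2.2.2.1
    rw [X.D.mul _ _ (by rw [hlbc, X.cs.length_simple, X.cs.length_simple]),
      X.D.mul _ _ (by rw [← hcomm, hlbc, X.cs.length_simple, X.cs.length_simple]), hcomm]
  have ty : X.D.t y = X.D.t (X.cs.simple c) * X.D.t y₅ := by
    rw [mull X y₅ c hlc5, hy5']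
  have tb5 : X.D.t (X.cs.simple b) * X.D.t y₅ = X.D.t (w * y₆) := by
    rw [mull X y₅ b hlb5, e6]
  have hE : X.D.t x * X.D.t (X.cs.simple a * X.cs.simple b) * X.D.t y =
      X.D.t x * X.D.t (X.cs.simple a) * X.D.t (X.cs.simple c) * X.D.t (w * y₆) := by
    rw [tab, ty, ← tb5]
    have : X.D.t x * (X.D.t (X.cs.simple a) * X.D.t (X.cs.simple b)) *
        (X.D.t (X.cs.simple c) * X.D.t y₅) =
        X.D.t x * X.D.t (X.cs.simple a) * (X.D.t (X.cs.simple b) * X.D.t (X.cs.simple c)) *
          X.D.t y₅ := by noncomm_ring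
    rw [this, tbc]
    noncomm_ring
  have txa : X.D.t x * X.D.t (X.cs.simple a) = X.D.t (x * X.cs.simple a) := mulr X x a hxa
  -- weights
  obtain ⟨w1, -, w2, -, w3, w4, w5⟩ := hWt a b hab
  obtain ⟨-, -, -, -, -, w6, -⟩ := hWt b a hab.symm
  obtain ⟨v1, -⟩ := hWt a c hac
  rw [← k2] at w6
  rw [← hw] at w1 w3 w4 w5
  have wab := w1 hab2
  have wac := v1 hac2
  have la := hL1 a
  have lb := hL1 b
  have lc := hL1 c
  have hla : X.l a = X.L (X.cs.simple a) := rfl
  have hlb : X.l b = X.L (X.cs.simple b) := rfl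
  have hlc : X.l c = X.L (X.cs.simple c) := rfl
  rw [hla, hlb, hE]
  -- `x₅` and `X'`
  have hxaa : X.cs.IsRightDescent (x * X.cs.simple a) a := by
    rw [X.cs.isRightDescent_iff, hsq']
    exact hxa.symm
  obtain ⟨⟨x₅, hx5, f1, -⟩, -, -⟩ := d1 a c hac (X.fin a c) (x * X.cs.simple a) hxaa hxc
  have hXL5 : XL X.cs {b, c} y₅ := by
    rintro i (rfl | rfl)
    · exact hlb5
    · exact hlc5
  have hR := (hRA1 S W X.M X.cs hLg a b c x₅ y₅ hab hac hbc hx5 (by rw [← f1, hsq']; exact hxR) hXL5).1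
  rw [← f1] at hR
  obtain ⟨x', hx'⟩ : ∃ x', x' = x * X.cs.simple a * X.cs.simple c * X.cs.simple a := ⟨_, rfl⟩
  rw [← hx'] at hR
  have hx'a : x' * X.cs.simple a = x * X.cs.simple a * X.cs.simple c := by rw [hx', hsq']
  have tx' : X.D.t (x * X.cs.simple a * X.cs.simple c) = X.D.t x' * X.D.t (X.cs.simple a) := by
    rw [mulr X x' a (hR a ma), hx'a]
  -- the four reduced triples
  have hlw : X.cs.length w = X.M a b := k4
  have hlaw : X.cs.length (X.cs.simple a * w) + 1 = X.cs.length w := (X.cs.isLeftDescent_iff).1 k10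
  have hfw : Full X.cs a b w := by
    rw [k12]
    exact ⟨k1, by omega⟩
  have hfaw : Full X.cs a b (X.cs.simple a * w) := by
    rw [k12]
    exact ⟨mul_mem (Subgroup.subset_closure ⟨a, ma, rfl⟩) k1, by omega⟩
  have hwy : X.cs.length (w * y₆) = X.cs.length w + X.cs.length y₆ := by
    rw [← e6, l6, hlw]
  have key : ∀ v, XR X.cs {a, b} v →
      X.LP M ((X.L (X.cs.simple a) : ℤ) + 1) (X.D.t v * X.D.t (X.cs.simple a) * X.D.t (w * y₆)) := by
    intro v hv
    have g1 := (hGEO S W X.M X.cs hLg a b v w y₆ hab hv hfw hy6).2 (by omega)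
    have g2 := (hGEO S W X.M X.cs hLg a b v (X.cs.simple a * w) y₆ hab hv hfaw hy6).2 (by omega)
    have h1 : X.D.t v * X.D.t (X.cs.simple a) * X.D.t (w * y₆) =
        xi (X.L (X.cs.simple a)) • X.D.t (v * w * y₆) + X.D.t (v * (X.cs.simple a * w) * y₆) := by
      rw [← X.D.mul w y₆ hwy, ← mul3 X _ _ _ g1, ← mul3 X _ _ _ g2]
      have : X.D.t v * X.D.t (X.cs.simple a) * (X.D.t w * X.D.t y₆) =
          X.D.t v * (X.D.t (X.cs.simple a) * X.D.t w) * X.D.t y₆ := by noncomm_ring
      rw [this, mull' X w a hlaw, mul_add, add_mul, mul_smul_comm, smul_mul_assoc]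
    rw [h1]
    refine TE.LP.add (TE.LP.smul_xi (TE.LP.t M _) (by omega)) ((TE.LP.t M _).mono (by omega))
  have hD : X.LP M ((X.L (X.cs.simple a) : ℤ) + X.L (X.cs.simple c) + 1)
      (X.D.t x * X.D.t (X.cs.simple a) * X.D.t (X.cs.simple c) * X.D.t (w * y₆)) := by
    have h2 : X.D.t x * X.D.t (X.cs.simple a) * X.D.t (X.cs.simple c) * X.D.t (w * y₆) =
        xi (X.L (X.cs.simple c)) • (X.D.t x * X.D.t (X.cs.simple a) * X.D.t (w * y₆)) +
          X.D.t x' * X.D.t (X.cs.simple a) * X.D.t (w * y₆) := by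
      rw [txa, mulr' X (x * X.cs.simple a) c (by omega), add_mul, smul_mul_assoc, tx']
    rw [h2]
    refine TE.LP.add (TE.LP.smul_xi (key x hxR) (by omega)) ((key x' hR).mono (by omega))
  -- the use of ULOW
  have hUL : ∀ K : ℤ, M < X.L (w0 X.cs a c) →
      (M : ℤ) - X.L (X.cs.simple a) - X.L (X.cs.simple b) ≤ K →
      (M : ℤ) - 2 * X.L (X.cs.simple a) - 2 * X.L (X.cs.simple c) ≤ K →
      (X.L (X.cs.simple a) : ℤ) + 1 ≤ K + X.L (X.cs.simple c) →
      X.LP M K (X.D.t x * X.D.t (X.cs.simple a) * X.D.t (X.cs.simple c) * X.D.t (w * y₆)) := by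
    intro K hMl hK1' hK2' hK3'
    have hα : X.α (w0 X.cs a c) = X.L (w0 X.cs a c) := ((hHW0 S W H X).2.2 a c hac).1
    have hGe : X.Ge (M + 1) (w0 X.cs a c) :=
      ge_self X (Or.inr ⟨a, c, rfl⟩) (hKD1 S W X.M X.cs a c hac (X.fin a c)).1.1 (by omega)
    rw [← hE]
    refine hULOW S W H X M n K a b c x x₅ y hId hN0 hN1 hab hac hbcne hac2 hxR hyL hx5 f1 hn hGe
      hK1' hK2' ?_
    have e1 : x₅ * (w0 X.cs a c * X.cs.simple c) = x * X.cs.simple a * X.cs.simple c := by
      rw [← mul_assoc, ← f1]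
    have e2 : X.cs.simple b * y = X.cs.simple c * (w * y₆) := by
      rw [← e6, ← hy5', ← mul_assoc, ← mul_assoc, hcomm]
    have l2 : X.cs.length (X.cs.simple c * (w * y₆)) = X.cs.length (w * y₆) + 1 := by
      rw [← e2, hyb, hwy, hlw]
      omega
    rw [e1, e2, ← mull X (w * y₆) c l2, ← mul_assoc]
    have e3 : X.D.t (x * X.cs.simple a * X.cs.simple c) * X.D.t (X.cs.simple c) =
        X.D.t x * X.D.t (X.cs.simple a) := by
      rw [mulr X (x * X.cs.simple a * X.cs.simple c) c (by rw [hsq']; omega), hsq', txa]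
    rw [e3]
    exact (key x hxR).mono hK3'
  -- the first statement
  have hi : X.L w ≤ M → X.LP M ((M : ℤ) - X.L (X.cs.simple a) - X.L (X.cs.simple b))
      (X.D.t x * X.D.t (X.cs.simple a) * X.D.t (X.cs.simple c) * X.D.t (w * y₆)) := by
    intro hM
    by_cases hbig : 2 * X.L (X.cs.simple a) + X.L (X.cs.simple b) + X.L (X.cs.simple c) + 1 ≤ M
    · exact hD.mono (by omega)
    · exact hUL _ (by omega) le_rfl (by omega) (by omega)
  refine ⟨hi, ?_⟩
  intro hl1
  have hl2 : X.L (X.cs.simple a) ≤ M ∧ X.L (X.cs.simple b) ≤ M := max_le_iff.1 hl1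
  by_cases hM : X.L w ≤ M
  · exact (hi hM).mono (by omega)
  have hα : X.α w = X.L w := ((hHW0 S W H X).2.2 a b hab).1
  have hGe : X.Ge (M + 1) w := ge_self X (Or.inr ⟨a, b, rfl⟩) k1 (by omega)
  by_cases hP : (X.L (X.cs.simple c) : ℤ) + max (X.L (X.cs.simple a) : ℤ) (X.L (X.cs.simple b)) ≤
      2 * X.L (X.cs.simple a) + 2 * X.L (X.cs.simple b)
  · -- low
    refine (hHRL S W H X M _ a b (X.D.t x * X.D.t (X.cs.simple a) * X.D.t (X.cs.simple c)) hab hId hGe).2
      y₆ hy6 ?_
    intro z hz hzw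
    rw [← hw] at hzw ⊢
    by_cases hz1 : z = X.cs.simple b * w
    · -- (i)
      have h1 : z * y₆ = y₅ := by
        rw [hz1, mul_assoc, ← e6, hsq]
      rw [h1, mul_assoc, ← ty]
      have h2 := hN1 x y a (by rw [X.cs.not_isRightDescent_iff]; exact hxa)
        (by rw [X.cs.not_isLeftDescent_iff]; exact hya) hn.le
      refine h2.mono ?_
      rw [hz1]
      omega
    · by_cases hz2 : z = X.cs.simple a * w
      · -- (ii)
        obtain ⟨u, hu⟩ : ∃ u, u = X.cs.simple b * (X.cs.simple a * (X.cs.simple b * y₅)) := ⟨_, rfl⟩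
        have hzu : z * y₆ = X.cs.simple b * u := by
          rw [hu, hsq, hz2, mul_assoc, ← e6]
        have lu1 : X.cs.length (X.cs.simple a * (X.cs.simple b * y₅)) + 1 =
            X.cs.length (X.cs.simple b * y₅) := (X.cs.isLeftDescent_iff).1 hay
        have lu2 : X.cs.length u + 1 = X.cs.length (X.cs.simple a * (X.cs.simple b * y₅)) := by
          rw [hu]
          exact (X.cs.isLeftDescent_iff).1 e7
        have hbu : X.cs.length (X.cs.simple b * u) = X.cs.length u + 1 := by
          rw [hu, hsq, ← hu]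
          exact lu2.symm
        have hcu : ¬ X.cs.IsLeftDescent u c := by
          intro h
          have hk : X.cs.simple b * (X.cs.simple a * w) ∈ par X.cs {a, b} :=
            mul_mem (Subgroup.subset_closure ⟨b, mb, rfl⟩)
              (mul_mem (Subgroup.subset_closure ⟨a, ma, rfl⟩) k1)
          have huk : u = X.cs.simple b * (X.cs.simple a * w) * y₆ := by
            rw [hu, e6]
            simp only [mul_assoc]
          rw [huk] at h
          have h3 := (hK1 S W X.M X.cs hLg).2.2.2.2.2.2.2.1 a c b y₆ _ hab hac.symm hbcne.symm hy6 hk h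
          have h4 := X.cs.length_mul_le (X.cs.simple b * (X.cs.simple a * w)) y₆
          rw [← huk] at h4
          omega
        have hlcu : X.cs.length (X.cs.simple c * u) = X.cs.length u + 1 :=
          (X.cs.not_isLeftDescent_iff).1 hcu
        have hby' : ¬ X.cs.IsLeftDescent (X.cs.simple c * u) b := by
          intro h
          have h1 : X.cs.IsLeftDescent (X.cs.simple c * u) c := by
            rw [X.cs.isLeftDescent_iff, hsq]
            exact hlcu.symm
          have h2 := (d2 c b hbcne.symm (X.fin c b) (X.cs.simple c * u) h1 h).2.1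
          rw [hsq, X.cs.isLeftDescent_iff] at h2
          omega
        have hay' : ¬ X.cs.IsLeftDescent (X.cs.simple c * u) a := by
          refine (hK1 S W X.M X.cs hLg).2.2.2.2.2.2.2.2.1 a b c u hab hac hbc ?_ ?_ hcu
          · rw [hu]; exact e9
          · rw [hu]; exact e10
        have hXL : XL X.cs {a, b} (X.cs.simple c * u) := by
          rintro i (rfl | rfl)
          · exact (X.cs.not_isLeftDescent_iff).1 hay'
          · exact (X.cs.not_isLeftDescent_iff).1 hby'
        have hfull : Full X.cs a b (X.cs.simple a * X.cs.simple b) := by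
          rw [k12]
          exact ⟨mul_mem (Subgroup.subset_closure ⟨a, ma, rfl⟩)
            (Subgroup.subset_closure ⟨b, mb, rfl⟩), hlab.ge⟩
        have hBd : X.Bd M a b (X.cs.simple a * X.cs.simple b)
            (max (X.L (X.cs.simple a) : ℤ) (X.L (X.cs.simple b))) := by
          refine ⟨by omega, Or.inr (Or.inl ⟨hab2, by rw [← hw]; omega, ?_⟩)⟩
          rw [hla, hlb]
          push_cast
          rfl
        have h5 := hN2 a b x (X.cs.simple a * X.cs.simple b) (X.cs.simple c * u) _ hab hxR hfull hXL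
          hBd (by omega)
        have h6 : X.D.t x * X.D.t (X.cs.simple a) * X.D.t (X.cs.simple c) * X.D.t (z * y₆) =
            X.D.t x * X.D.t (X.cs.simple a * X.cs.simple b) * X.D.t (X.cs.simple c * u) := by
          rw [hzu, ← mull X u b hbu, ← mull X u c hlcu, tab]
          have : X.D.t x * X.D.t (X.cs.simple a) * X.D.t (X.cs.simple c) *
              (X.D.t (X.cs.simple b) * X.D.t u) =
              X.D.t x * X.D.t (X.cs.simple a) * (X.D.t (X.cs.simple c) * X.D.t (X.cs.simple b)) *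
                X.D.t u := by noncomm_ring
          rw [this, ← tbc]
          noncomm_ring
        rw [h6]
        refine h5.mono ?_
        rw [hz2]
        omega
      · -- (iii)
        obtain ⟨z1, z2, z3, z4⟩ := k6 z hz
        have hlz : X.cs.length z + 2 ≤ X.M a b := by
          have h1 := z2 hzw
          by_contra hcon
          have h2 : X.cs.length (z * w) = 1 := by omega
          have h3 : z * w ∈ par X.cs {a, b} := mul_mem hz k1
          rcases (k13 (z * w) h3).1 h2 with h4 | h4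
          · exact hz2 (by rw [← h4, mul_assoc, k5, mul_one])
          · exact hz1 (by rw [← h4, mul_assoc, k5, mul_one])
        have hLz := (w5 z hz hzw).2.2.2.1 hlz
        have hly6 : X.cs.length (z * y₆) ≤ X.cs.length z + X.cs.length y₆ := X.cs.length_mul_le _ _
        rw [txa]
        by_cases hcz : X.cs.IsLeftDescent (z * y₆) c
        · have hz2' : X.cs.length z ≤ 2 :=
            (hK1 S W X.M X.cs hLg).2.2.2.2.2.2.2.1 a c b y₆ z hab hac.symm hbcne.symm hy6 hz hcz
          have hLz2 := (w5 z hz hzw).2.2.2.2 hab2 (by omega)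
          have hlcz : X.cs.length (X.cs.simple c * (z * y₆)) + 1 = X.cs.length (z * y₆) :=
            (X.cs.isLeftDescent_iff).1 hcz
          rw [mul_assoc, mull' X _ c hlcz, mul_add, mul_smul_comm]
          refine TE.LP.add (TE.LP.smul_xi (hN0 (x * X.cs.simple a) (z * y₆) (by omega)) ?_)
            ((hN0 (x * X.cs.simple a) (X.cs.simple c * (z * y₆)) (by omega)).mono ?_)
          · omega
          · omega
        · have hlcz : X.cs.length (X.cs.simple c * (z * y₆)) = X.cs.length (z * y₆) + 1 :=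
            (X.cs.not_isLeftDescent_iff).1 hcz
          rw [mul_assoc, mull X _ c hlcz]
          refine (hN0 (x * X.cs.simple a) (X.cs.simple c * (z * y₆)) (by omega)).mono ?_
          omega
  · -- the weight of `c` is large
    by_cases hMc : M < X.L (w0 X.cs a c)
    · exact hUL _ hMc (by omega) (by omega) (by omega)
    · exact hD.mono (by omega)

end Pool.Agent.Helper16.LE.UA2
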